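import Pool.Agent.Helper69.LT.St

/-!
# Module Van of project LT (MP_65faa7): vanishing of the weights
-/

set_option autoImplicit false

open scoped BigOperators ENNReal
open Pool.LE Pool.NL

namespace Pool.LT

namespace VanM

variable {V : Type} [DecidableEq V]

theorem con_mono {ω η : Finset (Sym2 V)} (h : ω ⊆ η) {x y : V} (hc : con ω x y) : con η x y := by
  refine SimpleGraph.Reachable.mono ?_ hc
  exact SimpleGraph.fromEdgeSet_mono (by exact_mod_cast h)

theorem con_refl (ω : Finset (Sym2 V)) (x : V) : con ω x x := SimpleGraph.Reachable.refl x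

theorem con_edge {ω : Finset (Sym2 V)} {a b : V} (h : s(a, b) ∈ ω) : con ω a b := by
  by_cases hab : a = b
  · subst hab
    exact con_refl ω a
  · refine SimpleGraph.Adj.reachable ?_
    show (SimpleGraph.fromEdgeSet (ω : Set (Sym2 V))).Adj a b
    rw [SimpleGraph.fromEdgeSet_adj]
    exact ⟨by exact_mod_cast h, hab⟩

theorem piv_con {ω : Finset (Sym2 V)} {v x a b : V} (h : piv ω v x a b) : con ω v x := by
  obtain ⟨h1, h2, h3, -⟩ := h
  have hs : ω.erase s(a, b) ⊆ ω := Finset.erase_subset _ _
  exact ((con_mono hs h2).trans (con_edge h1)).trans (con_mono hs h3)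

theorem rst_sub (ω : Finset (Sym2 V)) (A : Set V) : rst ω A ⊆ ω := by
  classical
  unfold rst
  exact Finset.filter_subset _ _

theorem mem_rst {ω : Finset (Sym2 V)} {A : Set V} {e : Sym2 V} :
    e ∈ rst ω A ↔ e ∈ ω ∧ ∀ v ∈ e, v ∉ A := by
  classical
  unfold rst
  exact Finset.mem_filter

theorem not_con_rst {ω : Finset (Sym2 V)} {A : Set V} {v u : V} (hv : v ∉ A) (hu : u ∈ A) :
    ¬ con (rst ω A) v u := by
  intro h
  have h' : (gr (rst ω A)).Reachable u v := h.symm
  obtain ⟨p⟩ := h'
  cases p with
  | nil => exact hv hu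
  | cons hadj q =>
    have h1 : s(u, _) ∈ ((rst ω A : Finset (Sym2 V)) : Set (Sym2 V)) :=
      ((SimpleGraph.fromEdgeSet_adj _).1 hadj).1
    have h2 := (mem_rst.1 (by exact_mod_cast h1)).2 u (Sym2.mem_mk_left _ _)
    exact h2 hu

theorem con_rst_iff {ω : Finset (Sym2 V)} {A : Set V} {v : V} (h : ∀ s ∈ A, ¬ con ω v s) (y : V) :
    con (rst ω A) v y ↔ con ω v y := by
  constructor
  · exact fun hc => con_mono (rst_sub ω A) hc
  · intro hc
    have hc' := (SimpleGraph.reachable_iff_reflTransGen v y).1 hc
    induction hc' with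
    | refl => exact con_refl _ _
    | tail hab hbc ih =>
      rename_i b c
      have hb : con ω v b := (SimpleGraph.reachable_iff_reflTransGen v b).2 hab
      have h1 : s(b, c) ∈ (ω : Set (Sym2 V)) := ((SimpleGraph.fromEdgeSet_adj _).1 hbc).1
      have h1' : s(b, c) ∈ ω := by exact_mod_cast h1
      have hc2 : con ω v c := hb.trans (con_edge h1')
      refine (ih hb).trans (con_edge ?_)
      rw [mem_rst]
      refine ⟨h1', ?_⟩
      intro w hw hwA
      rcases Sym2.mem_iff.1 hw with rfl | rfl
      · exact h _ hwA hb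
      · exact h _ hwA hc2

end VanM

open VanM

theorem hVan : SVan := by
  classical
  intro V _ R _ L r ω A v u
  refine ⟨?_, ?_, ?_, ?_⟩
  · intro h
    have hmT : mT L r ω v u = 0 := by
      unfold mT
      rw [if_neg h]
    have hmA : mA L r ω A v u = 0 := by
      unfold mA
      split_ifs with hv
      · rfl
      · unfold mT
        rw [if_neg (fun hc => h (con_mono (rst_sub ω A) hc))]
    refine ⟨hmT, hmA, ?_⟩
    unfold vA
    rw [if_neg (fun hd : dbl ω v u => h hd.1), zero_add]
    refine Finset.sum_eq_zero (fun cb _ => ?_)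
    rw [if_neg (fun hp => h (piv_con hp.1))]
  · intro hv
    unfold mA
    rw [if_pos hv]
  · intro hu
    unfold mA
    split_ifs with hv
    · rfl
    · unfold mT
      rw [if_neg (not_con_rst hv hu)]
  · intro h
    have hv : v ∉ A := fun hv => h v hv (con_refl ω v)
    unfold mA
    rw [if_neg hv]
    unfold mT
    have hpw : pw L r (rst ω A) v = pw L r ω v := by
      unfold pw
      refine Finset.prod_congr ?_ (fun _ _ => rfl)
      refine Finset.filter_congr (fun y _ => ?_)
      exact con_rst_iff h y
    by_cases hc : con ω v u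
    · rw [if_pos hc, if_pos ((con_rst_iff h u).2 hc), hpw]
    · rw [if_neg hc, if_neg (fun h' => hc ((con_rst_iff h u).1 h'))]

end Pool.LT
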